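import Pool.Agent.H236.LK773.LOR

set_option autoImplicit false

/-!
# Project LK (owner helper773), tasks YS and YWY: one channel (helper236)
-/

noncomputable section

namespace Pool.Agent.H236.LK773

open MeasureTheory Filter Topology Set
open scoped ENNReal NNReal ComplexConjugate InnerProductSpace FourierTransform

open Pool.Agent.H773.LK

/-- the phase -/
def ph (X y : ℝ → ℝ) (m : ℤ) (η s : ℝ) : ℂ :=
  Complex.exp (-(Complex.I * ((((m : ℝ) * X s + 2 * Real.pi * η * y s : ℝ)) : ℂ)))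

theorem ph_norm (X y : ℝ → ℝ) (m : ℤ) (η s : ℝ) : ‖ph X y m η s‖ = 1 := by
  unfold ph
  rw [← mul_neg, ← Complex.ofReal_neg, mul_comm, Complex.norm_exp_ofReal_mul_I]

theorem ph_cont {X y : ℝ → ℝ} (hX : Continuous X) (hy : Continuous y) (m : ℤ) :
    Continuous (fun p : ℝ × ℝ => ph X y m p.1 p.2) := by
  unfold ph
  fun_prop

theorem eh_eq {L : ℝ} {X y : ℝ → ℝ} (e : EL L) (m : ℤ) (η : ℝ) :
    eh L X y e (m, η) = ∫ s in Ioc (0 : ℝ) L, ph X y m η s * e s := rfl

theorem EL_int {L : ℝ} (e : EL L) : Integrable (fun s => e s) (volume.restrict (Ioc (0 : ℝ) L)) :=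
  (Lp.memLp e).integrable (by norm_num)

theorem eh_cont {L : ℝ} {X y : ℝ → ℝ} (hX : Continuous X) (hy : Continuous y) (e : EL L) (m : ℤ) :
    Continuous (fun η : ℝ => eh L X y e (m, η)) := by
  simp only [eh_eq]
  refine continuous_of_dominated (bound := fun s => ‖e s‖) ?_ ?_ (EL_int e).norm ?_
  · intro η
    exact (((ph_cont hX hy m).comp (Continuous.prodMk_right η)).aestronglyMeasurable).mul
      (EL_int e).aestronglyMeasurable
  · intro η
    refine Eventually.of_forall fun s => ?_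
    rw [norm_mul, ph_norm, one_mul]
  · refine Eventually.of_forall fun s => ?_
    exact ((ph_cont hX hy m).comp (Continuous.prodMk_left s)).mul continuous_const

theorem eh_bound {L : ℝ} {X y : ℝ → ℝ} (e : EL L) (m : ℤ) (η : ℝ) :
    ‖eh L X y e (m, η)‖ ≤ ∫ s in Ioc (0 : ℝ) L, ‖e s‖ := by
  rw [eh_eq]
  refine (norm_integral_le_integral_norm _).trans (le_of_eq ?_)
  refine integral_congr_ae (Eventually.of_forall fun s => ?_)
  simp only [norm_mul, ph_norm, one_mul]

theorem mk_cont {X y : ℝ → ℝ} (hX : Continuous X) (hy : Continuous y) (m : ℤ) (κ : ℂ) :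
    Continuous (Function.uncurry (Pool.Agent.H773.LK.mk X y m κ)) := by
  unfold Pool.Agent.H773.LK.mk Function.uncurry
  fun_prop

/-- the integrand -/
def gg (L : ℝ) (X y : ℝ → ℝ) (m : ℤ) (κ : ℂ) (e' e : EL L) (p : ℝ × (ℝ × ℝ)) : ℂ :=
  (1 / (κ ^ 2 + ((4 * Real.pi ^ 2 * p.1 ^ 2 : ℝ) : ℂ))) *
    ((conj (ph X y m p.1 p.2.1) * ph X y m p.1 p.2.2) * (conj (e' p.2.1) * e p.2.2))

theorem gg_int {L : ℝ} {X y : ℝ → ℝ} (hX : Continuous X) (hy : Continuous y) (m : ℤ) {κ : ℂ}
    (hκ : 0 < κ.re) (e' e : EL L) :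
    Integrable (gg L X y m κ e' e) ((volume : Measure ℝ).prod
      ((volume.restrict (Ioc (0 : ℝ) L)).prod (volume.restrict (Ioc (0 : ℝ) L)))) := by
  have h1 : Integrable (fun s => conj (e' s)) (volume.restrict (Ioc (0 : ℝ) L)) := by
    have := (EL_int e')
    exact (Complex.conjCLE.toContinuousLinearMap.integrable_comp this)
  have h2 : Integrable (fun p : ℝ × ℝ => conj (e' p.1) * e p.2)
      ((volume.restrict (Ioc (0 : ℝ) L)).prod (volume.restrict (Ioc (0 : ℝ) L))) :=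
    h1.mul_prod (EL_int e)
  have h3 := (integrable_lor hκ).mul_prod h2
  have h4 : Continuous (fun p : ℝ × (ℝ × ℝ) => conj (ph X y m p.1 p.2.1) * ph X y m p.1 p.2.2) := by
    have a1 : Continuous (fun p : ℝ × (ℝ × ℝ) => ph X y m p.1 p.2.1) :=
      (ph_cont hX hy m).comp (by fun_prop : Continuous (fun p : ℝ × (ℝ × ℝ) => (p.1, p.2.1)))
    have a2 : Continuous (fun p : ℝ × (ℝ × ℝ) => ph X y m p.1 p.2.2) :=
      (ph_cont hX hy m).comp (by fun_prop : Continuous (fun p : ℝ × (ℝ × ℝ) => (p.1, p.2.2)))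
    exact (Complex.continuous_conj.comp a1).mul a2
  have h5 := h3.bdd_mul (c := 1) h4.aestronglyMeasurable (Eventually.of_forall fun p => by
    rw [norm_mul, RCLike.norm_conj, ph_norm, ph_norm, mul_one])
  refine h5.congr (Eventually.of_forall fun p => ?_)
  simp only [gg]
  ring

theorem gg_inner {L : ℝ} {X y : ℝ → ℝ} (m : ℤ) (κ : ℂ) (e' e : EL L) (η : ℝ) :
    ∫ q, gg L X y m κ e' e (η, q)
      ∂((volume.restrict (Ioc (0 : ℝ) L)).prod (volume.restrict (Ioc (0 : ℝ) L))) =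
    conj (eh L X y e' (m, η)) * eh L X y e (m, η) /
      (κ ^ 2 + ((4 * Real.pi ^ 2 * η ^ 2 : ℝ) : ℂ)) := by
  simp only [gg]
  rw [integral_const_mul]
  have h1 : ∀ q : ℝ × ℝ, (conj (ph X y m η q.1) * ph X y m η q.2) * (conj (e' q.1) * e q.2) =
      conj (ph X y m η q.1 * e' q.1) * (ph X y m η q.2 * e q.2) := by
    intro q
    rw [map_mul]; ring
  simp only [h1]
  rw [integral_prod_mul (μ := volume.restrict (Ioc (0 : ℝ) L)) (ν := volume.restrict (Ioc (0 : ℝ) L))
    (fun s => conj (ph X y m η s * e' s)) (fun t => ph X y m η t * e t), integral_conj, ← eh_eq,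
    ← eh_eq]
  ring

theorem chan (hKOP : S_KOP) {L : ℝ} (hL : 0 < L) {X y : ℝ → ℝ} (hX : Continuous X)
    (hy : Continuous y) (m : ℤ) {κ : ℂ} (hκ : 0 < κ.re) (e' e : EL L) :
    Integrable (fun η : ℝ => conj (eh L X y e' (m, η)) * eh L X y e (m, η) /
      (κ ^ 2 + ((4 * Real.pi ^ 2 * η ^ 2 : ℝ) : ℂ))) ∧
    ∫ η : ℝ, conj (eh L X y e' (m, η)) * eh L X y e (m, η) /
      (κ ^ 2 + ((4 * Real.pi ^ 2 * η ^ 2 : ℝ) : ℂ)) = inner ℂ e' (Mo L X y m κ e) := by
  have hi := gg_int (L := L) hX hy m hκ e' e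
  constructor
  · refine hi.integral_prod_left.congr (Eventually.of_forall fun η => ?_)
    exact gg_inner m κ e' e η
  · have h1 : (∫ η : ℝ, conj (eh L X y e' (m, η)) * eh L X y e (m, η) /
        (κ ^ 2 + ((4 * Real.pi ^ 2 * η ^ 2 : ℝ) : ℂ))) =
        ∫ η : ℝ, ∫ q, gg L X y m κ e' e (η, q)
          ∂((volume.restrict (Ioc (0 : ℝ) L)).prod (volume.restrict (Ioc (0 : ℝ) L))) :=
      integral_congr_ae (Eventually.of_forall fun η => (gg_inner m κ e' e η).symm)
    rw [h1, integral_integral_swap (f := fun η q => gg L X y m κ e' e (η, q)) hi]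
    have h2 : ∀ q : ℝ × ℝ, ∫ η : ℝ, gg L X y m κ e' e (η, q) =
        conj (e' q.1) * (Pool.Agent.H773.LK.mk X y m κ q.1 q.2 * e q.2) := by
      intro q
      have hl := (t_LOR κ (y q.1 - y q.2) hκ).2
      have h3 : (∫ η : ℝ, gg L X y m κ e' e (η, q)) =
          (conj (e' q.1) * e q.2 * Complex.exp (Complex.I * ((m : ℂ) * ((X q.1 - X q.2 : ℝ) : ℂ)))) *
          ∫ η : ℝ, Complex.exp (Complex.I * ((2 * Real.pi * η * (y q.1 - y q.2) : ℝ) : ℂ)) /
          (κ ^ 2 + ((4 * Real.pi ^ 2 * η ^ 2 : ℝ) : ℂ)) := by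
        rw [← integral_const_mul]
        refine integral_congr_ae (Eventually.of_forall fun η => ?_)
        simp only [gg]
        have h4 : conj (ph X y m η q.1) * ph X y m η q.2 =
            Complex.exp (Complex.I * ((m : ℂ) * ((X q.1 - X q.2 : ℝ) : ℂ))) *
            Complex.exp (Complex.I * ((2 * Real.pi * η * (y q.1 - y q.2) : ℝ) : ℂ)) := by
          unfold ph
          rw [← Complex.exp_conj, ← Complex.exp_add, ← Complex.exp_add]
          congr 1
          simp only [map_neg, map_mul, Complex.conj_I, Complex.conj_ofReal]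
          push_cast
          ring
        rw [h4]
        ring
      rw [h3, hl]
      unfold Pool.Agent.H773.LK.mk
      ring
    simp only [h2]
    have h6 := ((hKOP L hL).1 _ (mk_cont hX hy m κ)).2.2.2.1 e' e
    rw [show Mo L X y m κ = kop L (Pool.Agent.H773.LK.mk X y m κ) from rfl, h6]
    rw [integral_prod]
    have h5 : Integrable (fun q : ℝ × ℝ => ∫ η : ℝ, gg L X y m κ e' e (η, q))
        ((volume.restrict (Ioc (0 : ℝ) L)).prod (volume.restrict (Ioc (0 : ℝ) L))) :=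
      hi.integral_prod_right
    exact h5.congr (Eventually.of_forall fun q => h2 q)

end Pool.Agent.H236.LK773
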