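import Pool.Agent.H773.LK.Spec2

set_option autoImplicit false

/-!
# Project LK (owner helper773), task LOR (helper236)
-/

noncomputable section

namespace Pool.Agent.H236.LK773

open MeasureTheory Filter Topology Set
open scoped ENNReal NNReal ComplexConjugate InnerProductSpace FourierTransform

open Pool.Agent.H773.LK

theorem factor_lor (κ : ℂ) (η : ℝ) : κ ^ 2 + ((4 * Real.pi ^ 2 * η ^ 2 : ℝ) : ℂ) =
      (κ + ((2 * Real.pi * η : ℝ) : ℂ) * Complex.I) * (κ - ((2 * Real.pi * η : ℝ) : ℂ) * Complex.I) := by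
  push_cast
  linear_combination (4 * (Real.pi : ℂ) ^ 2 * (η : ℂ) ^ 2) * Complex.I_sq

theorem half_lor {κ : ℂ} (hκ : 0 < κ.re) (t : ℝ) :
    (1 + t ^ 2) ≤ ((1 + 2 * κ.im ^ 2) / κ.re ^ 2 + 2) * ‖κ + (t : ℂ) * Complex.I‖ ^ 2 := by
  have h1 : ‖κ + (t : ℂ) * Complex.I‖ ^ 2 = κ.re ^ 2 + (κ.im + t) ^ 2 := by
    rw [← Complex.normSq_eq_norm_sq, Complex.normSq_apply]
    simp
    ring
  rw [h1]
  have h2 : (0 : ℝ) < κ.re ^ 2 := by positivity
  have h3 : (1 + 2 * κ.im ^ 2) / κ.re ^ 2 * κ.re ^ 2 = 1 + 2 * κ.im ^ 2 :=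
    div_mul_cancel₀ _ h2.ne'
  have h4 : 0 ≤ (1 + 2 * κ.im ^ 2) / κ.re ^ 2 := by positivity
  have h5 : ((1 + 2 * κ.im ^ 2) / κ.re ^ 2 + 2) * (κ.re ^ 2 + (κ.im + t) ^ 2) =
      (1 + 2 * κ.im ^ 2) + (1 + 2 * κ.im ^ 2) / κ.re ^ 2 * (κ.im + t) ^ 2 +
        2 * κ.re ^ 2 + 2 * (κ.im + t) ^ 2 := by
    rw [← h3]
    field_simp
    ring
  rw [h5]
  have h6 : 0 ≤ (1 + 2 * κ.im ^ 2) / κ.re ^ 2 * (κ.im + t) ^ 2 := by positivity
  nlinarith [sq_nonneg (2 * κ.im + t), sq_nonneg (κ.im + t)]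

/-- lower bound of the denominator -/
theorem lower_lor {κ : ℂ} (hκ : 0 < κ.re) :
    ∃ c : ℝ, 0 < c ∧ ∀ η : ℝ, c * (1 + η ^ 2) ≤ ‖κ ^ 2 + ((4 * Real.pi ^ 2 * η ^ 2 : ℝ) : ℂ)‖ := by
  set K : ℝ := (1 + 2 * κ.im ^ 2) / κ.re ^ 2 + 2 with hK
  have hK0 : 0 < K := by rw [hK]; positivity
  refine ⟨1 / K, by positivity, fun η => ?_⟩
  rw [factor_lor, norm_mul]
  set t : ℝ := 2 * Real.pi * η with ht
  have h1 := half_lor hκ t
  have h2 := half_lor hκ (-t)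
  rw [← hK] at h1 h2
  have h2' : (1 + t ^ 2) ≤ K * ‖κ - (t : ℂ) * Complex.I‖ ^ 2 := by
    have : κ + ((-t : ℝ) : ℂ) * Complex.I = κ - (t : ℂ) * Complex.I := by push_cast; ring
    rw [this] at h2
    simpa using h2
  have h3 : (1 + t ^ 2) ^ 2 ≤ (K * (‖κ + (t : ℂ) * Complex.I‖ * ‖κ - (t : ℂ) * Complex.I‖)) ^ 2 := by
    calc (1 + t ^ 2) ^ 2 = (1 + t ^ 2) * (1 + t ^ 2) := by ring
      _ ≤ (K * ‖κ + (t : ℂ) * Complex.I‖ ^ 2) * (K * ‖κ - (t : ℂ) * Complex.I‖ ^ 2) :=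
        mul_le_mul h1 h2' (by positivity) (by positivity)
      _ = _ := by ring
  have h4 : 1 + t ^ 2 ≤ K * (‖κ + (t : ℂ) * Complex.I‖ * ‖κ - (t : ℂ) * Complex.I‖) :=
    le_of_sq_le_sq h3 (by positivity)
  have h5 : 1 + η ^ 2 ≤ 1 + t ^ 2 := by
    rw [ht]
    have : (1 : ℝ) ≤ (2 * Real.pi) ^ 2 := by nlinarith [Real.pi_gt_three]
    nlinarith [sq_nonneg η]
  rw [one_div, inv_mul_le_iff₀ hK0]
  linarith

theorem ne_zero_lor {κ : ℂ} (hκ : 0 < κ.re) (η : ℝ) :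
    κ ^ 2 + ((4 * Real.pi ^ 2 * η ^ 2 : ℝ) : ℂ) ≠ 0 := by
  obtain ⟨c, hc, h⟩ := lower_lor hκ
  have := h η
  intro h0
  rw [h0, norm_zero] at this
  nlinarith [sq_nonneg η]

theorem integrable_lor {κ : ℂ} (hκ : 0 < κ.re) :
    Integrable fun η : ℝ => 1 / (κ ^ 2 + ((4 * Real.pi ^ 2 * η ^ 2 : ℝ) : ℂ)) := by
  obtain ⟨c, hc, h⟩ := lower_lor hκ
  have hi : Integrable fun η : ℝ => c⁻¹ * (1 + η ^ 2)⁻¹ := integrable_inv_one_add_sq.const_mul _
  refine hi.mono' ?_ ?_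
  · refine Continuous.aestronglyMeasurable ?_
    refine continuous_const.div (by fun_prop) (ne_zero_lor hκ)
  · refine Eventually.of_forall fun η => ?_
    rw [norm_div, norm_one, ← mul_inv, one_div]
    exact inv_anti₀ (by positivity) (h η)

/-- the function `e^{-κ|v|}` -/
def fl (κ : ℂ) (v : ℝ) : ℂ := Complex.exp (-(κ * ((|v| : ℝ) : ℂ)))

theorem fl_cont (κ : ℂ) : Continuous (fl κ) := by
  unfold fl
  fun_prop

theorem fl_int {κ : ℂ} (hκ : 0 < κ.re) : Integrable (fl κ) := by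
  have h1 : IntegrableOn (fl κ) (Ioi 0) := by
    refine (integrableOn_exp_mul_complex_Ioi (a := -κ) (by simpa using hκ) 0).congr_fun ?_
      measurableSet_Ioi
    intro x hx
    simp only [fl, abs_of_pos (mem_Ioi.1 hx)]
    congr 1
    ring
  have h2 : IntegrableOn (fl κ) (Iic 0) := by
    refine (integrableOn_exp_mul_complex_Iic (a := κ) hκ 0).congr_fun ?_ measurableSet_Iic
    intro x hx
    simp only [fl, abs_of_nonpos (mem_Iic.1 hx)]
    congr 1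
    push_cast
    ring
  rw [← integrableOn_univ, ← Iic_union_Ioi (a := (0 : ℝ))]
  exact h2.union h1

theorem fl_fourier {κ : ℂ} (hκ : 0 < κ.re) (η : ℝ) :
    𝓕 (fl κ) η = 2 * κ * (1 / (κ ^ 2 + ((4 * Real.pi ^ 2 * η ^ 2 : ℝ) : ℂ))) := by
  rw [Real.fourier_real_eq_integral_exp_smul]
  set τ : ℂ := ((2 * Real.pi * η : ℝ) : ℂ) * Complex.I with hτ
  have hre1 : (-(κ + τ)).re < 0 := by simp [hτ, hκ]
  have hre2 : 0 < (κ - τ).re := by simp [hτ, hκ]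
  have e1 : ∀ v ∈ Ioi (0 : ℝ), Complex.exp (((-2 * Real.pi * v * η : ℝ) : ℂ) * Complex.I) • fl κ v =
      Complex.exp ((-(κ + τ)) * v) := by
    intro v hv
    simp only [fl, abs_of_pos (mem_Ioi.1 hv), smul_eq_mul, ← Complex.exp_add]
    congr 1
    rw [hτ]; push_cast; ring
  have e2 : ∀ v ∈ Iic (0 : ℝ), Complex.exp (((-2 * Real.pi * v * η : ℝ) : ℂ) * Complex.I) • fl κ v =
      Complex.exp ((κ - τ) * v) := by
    intro v hv
    simp only [fl, abs_of_nonpos (mem_Iic.1 hv), smul_eq_mul, ← Complex.exp_add]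
    congr 1
    rw [hτ]; push_cast; ring
  have i1 : IntegrableOn (fun v : ℝ => Complex.exp (((-2 * Real.pi * v * η : ℝ) : ℂ) * Complex.I) •
      fl κ v) (Ioi 0) :=
    (integrableOn_exp_mul_complex_Ioi hre1 0).congr_fun (fun v hv => (e1 v hv).symm)
      measurableSet_Ioi
  have i2 : IntegrableOn (fun v : ℝ => Complex.exp (((-2 * Real.pi * v * η : ℝ) : ℂ) * Complex.I) •
      fl κ v) (Iic 0) :=
    (integrableOn_exp_mul_complex_Iic hre2 0).congr_fun (fun v hv => (e2 v hv).symm)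
      measurableSet_Iic
  rw [← intervalIntegral.integral_Iic_add_Ioi i2 i1, setIntegral_congr_fun measurableSet_Iic e2,
    setIntegral_congr_fun measurableSet_Ioi e1, integral_exp_mul_complex_Ioi hre1,
    integral_exp_mul_complex_Iic hre2]
  have hn1 : κ + τ ≠ 0 := by
    intro h; rw [h] at hre1; simp at hre1
  have hn2 : κ - τ ≠ 0 := by
    intro h; rw [h] at hre2; simp at hre2
  rw [factor_lor, ← hτ]
  simp only [Complex.ofReal_zero, mul_zero, Complex.exp_zero]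
  field_simp
  ring

/-- **LOR.** -/
theorem t_LOR : S_LOR := by
  intro κ u hκ
  refine ⟨integrable_lor hκ, ?_⟩
  have hκ0 : κ ≠ 0 := by rintro rfl; simp at hκ
  have hF : (𝓕 (fl κ)) = fun η : ℝ => 2 * κ * (1 / (κ ^ 2 + ((4 * Real.pi ^ 2 * η ^ 2 : ℝ) : ℂ))) :=
    funext fun η => fl_fourier hκ η
  have h1 : Integrable (𝓕 (fl κ)) := by
    rw [hF]; exact (integrable_lor hκ).const_mul _
  have h2 := congrFun ((fl_cont κ).fourierInv_fourier_eq (fl_int hκ) h1) u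
  rw [Real.fourierInv_eq', hF] at h2
  have h3 : (∫ v : ℝ, Complex.exp (((2 * Real.pi * inner ℝ v u : ℝ) : ℂ) * Complex.I) •
      (2 * κ * (1 / (κ ^ 2 + ((4 * Real.pi ^ 2 * v ^ 2 : ℝ) : ℂ))))) =
      (2 * κ) * ∫ η : ℝ, Complex.exp (Complex.I * ((2 * Real.pi * η * u : ℝ) : ℂ)) /
      (κ ^ 2 + ((4 * Real.pi ^ 2 * η ^ 2 : ℝ) : ℂ)) := by
    rw [← integral_const_mul]
    refine integral_congr_ae (Eventually.of_forall fun η => ?_)
    simp only [smul_eq_mul]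
    have : ((2 * Real.pi * inner ℝ η u : ℝ) : ℂ) * Complex.I =
        Complex.I * ((2 * Real.pi * η * u : ℝ) : ℂ) := by
      simp only [RCLike.inner_apply, conj_trivial]
      push_cast; ring
    rw [this]
    ring
  rw [h3] at h2
  rw [eq_div_iff (by simpa using hκ0), mul_comm]
  exact h2

end Pool.Agent.H236.LK773
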