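import Pool.Agent.H236.LK773.Chan

set_option autoImplicit false

/-!
# Project LK (owner helper773), task OPEN (helper236)
-/

noncomputable section

namespace Pool.Agent.H236.LK773

open MeasureTheory Filter Topology Set
open scoped ENNReal NNReal ComplexConjugate InnerProductSpace FourierTransform

open Pool.Agent.H773.LK

theorem csq_pos {x : ℝ} (hx : 0 ≤ x) : csq (x : ℂ) = ((√x : ℝ) : ℂ) := by
  unfold csq
  rw [Real.sqrt_eq_rpow, Complex.ofReal_cpow hx]
  norm_num

theorem csq_neg {x : ℝ} (hx : 0 < x) : csq ((-x : ℝ) : ℂ) = Complex.I * ((√x : ℝ) : ℂ) := by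
  unfold csq
  have h0 : ((-x : ℝ) : ℂ) ≠ 0 := by
    exact_mod_cast (by linarith : (-x : ℝ) ≠ 0)
  have h1 : Complex.log ((-x : ℝ) : ℂ) = (Real.log x : ℂ) + Real.pi * Complex.I := by
    rw [Complex.log, Complex.arg_ofReal_of_neg (by linarith), Complex.norm_real, Real.norm_eq_abs,
      abs_neg, abs_of_pos hx]
  rw [Complex.cpow_def_of_ne_zero h0, h1, add_mul, Complex.exp_add]
  have h2 : Complex.exp ((Real.pi : ℂ) * Complex.I * (1 / 2)) = Complex.I := by
    rw [show (Real.pi : ℂ) * Complex.I * (1 / 2) = (Real.pi : ℂ) / 2 * Complex.I by ring]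
    exact Complex.exp_pi_div_two_mul_I
  have h3 : Complex.exp ((Real.log x : ℂ) * (1 / 2)) = ((√x : ℝ) : ℂ) := by
    rw [Real.sqrt_eq_rpow, Real.rpow_def_of_pos hx]
    push_cast
    rfl
  rw [h2, h3, mul_comm]

/-- the threshold distance -/
def dd (β θ lam : ℝ) (m : ℤ) : ℝ := (β * ((m : ℝ) + θ)) ^ 2 - lam

theorem kpl_real (β θ lam : ℝ) (m : ℤ) :
    kpl β θ (lam : ℂ) m = -Complex.I * csq ((-(dd β θ lam m) : ℝ) : ℂ) := by
  unfold kpl dd
  congr 2
  push_cast
  ring

theorem kmi_real (β θ lam : ℝ) (m : ℤ) :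
    kmi β (θ : ℂ) lam m = if 0 ≤ m then csq ((dd β θ lam m : ℝ) : ℂ)
      else conj (csq ((dd β θ lam m : ℝ) : ℂ)) := by
  unfold kmi
  have h : ((β : ℂ) * ((m : ℂ) + (θ : ℂ))) ^ 2 - (lam : ℂ) = ((dd β θ lam m : ℝ) : ℂ) := by
    unfold dd
    push_cast
    ring
  rw [h, Complex.conj_ofReal]

theorem kpl_closed {β θ lam : ℝ} {m : ℤ} (h : 0 < dd β θ lam m) :
    kpl β θ (lam : ℂ) m = ((√(dd β θ lam m) : ℝ) : ℂ) := by
  rw [kpl_real, csq_neg h]
  linear_combination -((√(dd β θ lam m) : ℝ) : ℂ) * Complex.I_sq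

theorem kpl_open {β θ lam : ℝ} {m : ℤ} (h : dd β θ lam m < 0) :
    kpl β θ (lam : ℂ) m = -(Complex.I * ((√(-dd β θ lam m) : ℝ) : ℂ)) := by
  rw [kpl_real, csq_pos (by linarith)]
  ring

theorem kmi_closed {β θ lam : ℝ} {m : ℤ} (h : 0 < dd β θ lam m) :
    kmi β (θ : ℂ) lam m = ((√(dd β θ lam m) : ℝ) : ℂ) := by
  rw [kmi_real, csq_pos h.le, Complex.conj_ofReal]
  split_ifs <;> rfl

theorem kmi_open {β θ lam : ℝ} {m : ℤ} (h : dd β θ lam m < 0) :
    kmi β (θ : ℂ) lam m = if 0 ≤ m then Complex.I * ((√(-dd β θ lam m) : ℝ) : ℂ)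
      else -(Complex.I * ((√(-dd β θ lam m) : ℝ) : ℂ)) := by
  have h1 := csq_neg (x := -dd β θ lam m) (by linarith)
  rw [neg_neg] at h1
  rw [kmi_real, h1]
  split_ifs
  · rfl
  · rw [map_mul, Complex.conj_I, Complex.conj_ofReal]
    ring

theorem Mo_adj (hKOP : S_KOP) {L : ℝ} (hL : 0 < L) {X y : ℝ → ℝ} (hX : Continuous X)
    (hy : Continuous y) (m : ℤ) (κ : ℂ) :
    (Mo L X y m κ).adjoint = Mo L X y m (conj κ) := by
  have h := ((hKOP L hL).1 _ (mk_cont hX hy m κ)).2.2.2.2
  unfold Mo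
  rw [h]
  congr 1
  funext s t
  unfold Pool.Agent.H773.LK.mk
  rw [map_div₀, map_mul, ← Complex.exp_conj, ← Complex.exp_conj]
  simp only [map_mul, map_neg, Complex.conj_I, Complex.conj_ofReal, map_intCast, map_ofNat]
  rw [abs_sub_comm (y t) (y s)]
  congr 2
  congr 1
  push_cast
  ring

/-- the kernel of rank one -/
def pk (X y : ℝ → ℝ) (m : ℤ) (η s t : ℝ) : ℂ := conj (ph X y m η s) * ph X y m η t

theorem pk_cont {X y : ℝ → ℝ} (hX : Continuous X) (hy : Continuous y) (m : ℤ) (η : ℝ) :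
    Continuous (Function.uncurry (pk X y m η)) := by
  unfold pk Function.uncurry
  have a1 : Continuous (fun p : ℝ × ℝ => ph X y m η p.1) :=
    (ph_cont hX hy m).comp (by fun_prop : Continuous (fun p : ℝ × ℝ => (η, p.1)))
  have a2 : Continuous (fun p : ℝ × ℝ => ph X y m η p.2) :=
    (ph_cont hX hy m).comp (by fun_prop : Continuous (fun p : ℝ × ℝ => (η, p.2)))
  exact (Complex.continuous_conj.comp a1).mul a2

theorem pk_inner (hKOP : S_KOP) {L : ℝ} (hL : 0 < L) {X y : ℝ → ℝ} (hX : Continuous X)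
    (hy : Continuous y) (m : ℤ) (η : ℝ) (e' e : EL L) :
    inner ℂ e' (kop L (pk X y m η) e) = conj (eh L X y e' (m, η)) * eh L X y e (m, η) := by
  rw [((hKOP L hL).1 _ (pk_cont hX hy m η)).2.2.2.1 e' e]
  have h1 : ∀ s : ℝ, ∫ t in Ioc (0 : ℝ) L, conj (e' s) * (pk X y m η s t * e t) =
      conj (ph X y m η s * e' s) * eh L X y e (m, η) := by
    intro s
    rw [eh_eq, ← integral_const_mul]
    refine integral_congr_ae (Eventually.of_forall fun t => ?_)
    simp only [pk, map_mul]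
    ring
  simp only [h1]
  rw [integral_mul_const, integral_conj, ← eh_eq]

theorem pk_eq (X y : ℝ → ℝ) (m : ℤ) (η s t : ℝ) : pk X y m η s t =
    Complex.exp (Complex.I * ((m : ℂ) * ((X s - X t : ℝ) : ℂ))) *
      Complex.exp (Complex.I * ((2 * Real.pi * η * (y s - y t) : ℝ) : ℂ)) := by
  unfold pk ph
  rw [← Complex.exp_conj, ← Complex.exp_add, ← Complex.exp_add]
  congr 1
  simp only [map_neg, map_mul, Complex.conj_I, Complex.conj_ofReal]
  push_cast
  ring

theorem Mo_diff (hKOP : S_KOP) {L : ℝ} (hL : 0 < L) {X y : ℝ → ℝ} (hX : Continuous X)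
    (hy : Continuous y) (m : ℤ) {ν : ℝ} (hν : 0 < ν) :
    Mo L X y m (Complex.I * ν) = Mo L X y m (-(Complex.I * ν)) +
      (1 / (2 * (Complex.I * ν))) • (kop L (pk X y m (ν / (2 * Real.pi))) +
        kop L (pk X y m (-(ν / (2 * Real.pi))))) := by
  have c1 := pk_cont hX hy m (ν / (2 * Real.pi))
  have c2 := pk_cont hX hy m (-(ν / (2 * Real.pi)))
  have c3 : Continuous (Function.uncurry fun s t => pk X y m (ν / (2 * Real.pi)) s t +
      pk X y m (-(ν / (2 * Real.pi))) s t) := c1.add c2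
  have c4 : Continuous (Function.uncurry fun s t => (1 / (2 * (Complex.I * ν))) *
      (pk X y m (ν / (2 * Real.pi)) s t + pk X y m (-(ν / (2 * Real.pi))) s t)) :=
    continuous_const.mul c3
  rw [← (hKOP L hL).2.1 _ _ c1 c2, ← (hKOP L hL).2.2 _ _ c3]
  unfold Mo
  rw [← (hKOP L hL).2.1 _ _ (mk_cont hX hy m _) c4]
  congr 1
  funext s t
  rw [pk_eq, pk_eq]
  unfold Pool.Agent.H773.LK.mk
  have hpi : (2 * Real.pi * (ν / (2 * Real.pi)) * (y s - y t)) = ν * (y s - y t) := by
    have := Real.pi_pos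
    field_simp
  have hpi2 : (2 * Real.pi * (-(ν / (2 * Real.pi))) * (y s - y t)) = -(ν * (y s - y t)) := by
    have := Real.pi_pos
    field_simp
  rw [hpi, hpi2]
  set E := Complex.exp (Complex.I * ((m : ℂ) * ((X s - X t : ℝ) : ℂ)))
  have hν0 : (ν : ℂ) ≠ 0 := by exact_mod_cast hν.ne'
  have key : Complex.exp (-(Complex.I * ν * ((|y s - y t| : ℝ) : ℂ))) +
      Complex.exp (-(-(Complex.I * ν) * ((|y s - y t| : ℝ) : ℂ))) =
      Complex.exp (Complex.I * ((ν * (y s - y t) : ℝ) : ℂ)) +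
      Complex.exp (Complex.I * ((-(ν * (y s - y t)) : ℝ) : ℂ)) := by
    rcases le_total 0 (y s - y t) with h | h
    · rw [abs_of_nonneg h, add_comm]
      congr 2 <;> · push_cast; ring
    · rw [abs_of_nonpos h]
      congr 2 <;> · push_cast; ring
  have hI := Complex.I_ne_zero
  generalize Complex.exp (-(Complex.I * ν * ((|y s - y t| : ℝ) : ℂ))) = A1 at key ⊢
  generalize Complex.exp (-(-(Complex.I * ν) * ((|y s - y t| : ℝ) : ℂ))) = A2 at key ⊢
  generalize Complex.exp (Complex.I * ((ν * (y s - y t) : ℝ) : ℂ)) = A3 at key ⊢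
  generalize Complex.exp (Complex.I * ((-(ν * (y s - y t)) : ℝ) : ℂ)) = A4 at key ⊢
  field_simp
  linear_combination E * key


/-- imaginary part of one mode -/
def tm (L : ℝ) (X y : ℝ → ℝ) (κ : ℤ → ℂ) (e : EL L) (m : ℤ) : ℝ :=
  (inner ℂ e (Mo L X y m (κ m) e)).im

theorem im_closed (hKOP : S_KOP) {L : ℝ} (hL : 0 < L) {X y : ℝ → ℝ} (hX : Continuous X)
    (hy : Continuous y) (m : ℤ) {κ : ℂ} (hκ : conj κ = κ) (e : EL L) :
    (inner ℂ e (Mo L X y m κ e)).im = 0 := by
  have h1 : conj (inner ℂ e (Mo L X y m κ e)) = inner ℂ e (Mo L X y m κ e) := by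
    rw [inner_conj_symm, ← ContinuousLinearMap.adjoint_inner_right, Mo_adj hKOP hL hX hy, hκ]
  exact Complex.conj_eq_iff_im.1 h1

theorem im_open (hKOP : S_KOP) {L : ℝ} (hL : 0 < L) {X y : ℝ → ℝ} (hX : Continuous X)
    (hy : Continuous y) (m : ℤ) {ν : ℝ} (hν : 0 < ν) (e : EL L) :
    (inner ℂ e (Mo L X y m (-(Complex.I * ν)) e)).im =
      (1 / (4 * ν)) * (‖eh L X y e (m, ν / (2 * Real.pi))‖ ^ 2 +
        ‖eh L X y e (m, -(ν / (2 * Real.pi)))‖ ^ 2) := by
  set w := inner ℂ e (Mo L X y m (-(Complex.I * ν)) e) with hw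
  have h1 : conj w = inner ℂ e (Mo L X y m (Complex.I * ν) e) := by
    rw [hw, inner_conj_symm, ← ContinuousLinearMap.adjoint_inner_right, Mo_adj hKOP hL hX hy]
    congr 3
    rw [map_neg, map_mul, Complex.conj_I, Complex.conj_ofReal]
    ring
  rw [Mo_diff hKOP hL hX hy m hν] at h1
  simp only [_root_.add_apply, _root_.smul_apply, inner_add_right, inner_smul_right] at h1
  rw [← hw, pk_inner hKOP hL hX hy, pk_inner hKOP hL hX hy, mul_comm (conj _), Complex.mul_conj,
    mul_comm (conj _), Complex.mul_conj, Complex.normSq_eq_norm_sq, Complex.normSq_eq_norm_sq] at h1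
  set P : ℝ := ‖eh L X y e (m, ν / (2 * Real.pi))‖ ^ 2
  set Q : ℝ := ‖eh L X y e (m, -(ν / (2 * Real.pi)))‖ ^ 2
  have hν0 : (ν : ℂ) ≠ 0 := by exact_mod_cast hν.ne'
  have hI := Complex.I_ne_zero
  have h2 : conj w - w = ((-(1 / (2 * ν)) * (P + Q) : ℝ) : ℂ) * Complex.I := by
    rw [h1]
    push_cast
    field_simp
    linear_combination (((P : ℝ) : ℂ) + ((Q : ℝ) : ℂ)) * (Complex.I_sq)
  have h3 := congrArg Complex.im h2
  simp only [Complex.sub_im, Complex.conj_im, Complex.mul_im, Complex.ofReal_re, Complex.ofReal_im,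
    Complex.I_re, Complex.I_im] at h3
  have h4 : w.im = (1 / (4 * ν)) * (P + Q) := by
    have : -w.im - w.im = -(1 / (2 * ν)) * (P + Q) * 1 + 0 * 0 := h3
    field_simp at this ⊢
    linarith
  exact h4

/-- **OPEN.** -/
theorem t_OPEN (hKOP : S_KOP) (hCONV : S_CONV) (hKPL : S_KPL) : S_OPEN := by
  intro L β X y hc θ lam a hθ0 hθ1 hlam e he
  have hL := hc.L_pos
  have hX := hc.X_cont
  have hy := hc.y_cont
  by_cases ha : a = 0
  · subst ha
    simp only [Complex.ofReal_zero, zero_smul] at he ⊢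
    simpa using he
  -- the signs
  have hd : ∀ m : ℤ, dd β θ lam m ≠ 0 := by
    intro m h
    refine hlam ⟨m, ?_⟩
    unfold dd at h
    linarith
  set κp : ℤ → ℂ := kpl β θ (lam : ℂ) with hκp
  set κm : ℤ → ℂ := kmi β (θ : ℂ) lam with hκm
  obtain ⟨δ, c₀, C₀, C, hδ, hc₀, hC, hz⟩ := (hKPL β θ hc.β_pos hθ0 hθ1).1 lam hlam
  have hadm : Adm β c₀ C₀ κp := (hz (lam : ℂ) (by simp) (by simpa using hδ)).1
  have hcase : ∀ m : ℤ, κm m = κp m ∨ κm m = conj (κp m) := by
    intro m
    rcases lt_or_gt_of_ne (hd m) with h | h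
    · rw [hκp, hκm, kmi_open h, kpl_open h]
      split_ifs
      · right
        rw [map_neg, map_mul, Complex.conj_I, Complex.conj_ofReal]
        ring
      · left; rfl
    · left
      rw [hκp, hκm, kmi_closed h, kpl_closed h]
  have hadm2 : Adm β c₀ C₀ κm := by
    constructor
    · intro m
      rcases hcase m with h | h
      · rw [h]; exact hadm.lower m
      · rw [h, RCLike.norm_conj]; exact hadm.lower m
    · intro m
      rcases hcase m with h | h
      · rw [h]; exact hadm.near m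
      · rw [h]
        have h1 : conj (κp m) - ((β * |(m : ℝ)| : ℝ) : ℂ) = conj (κp m - ((β * |(m : ℝ)| : ℝ) : ℂ)) := by
          rw [map_sub, Complex.conj_ofReal]
        rw [h1, RCLike.norm_conj]
        exact hadm.near m
  obtain ⟨ρ, hρ, hρ2⟩ := hCONV L β X y hc c₀ C₀ hc₀
  have hlim : ∀ κ : ℤ → ℂ, Adm β c₀ C₀ κ →
      Tendsto (fun N : ℕ => PS L X y κ N e) atTop (𝓝 (KK L X y κ e)) := by
    intro κ hκ
    have h8 : Tendsto (fun N : ℕ => PS L X y κ N) atTop (𝓝 (KK L X y κ)) := by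
      rw [tendsto_iff_norm_sub_tendsto_zero]
      exact squeeze_zero (fun N => norm_nonneg _) (fun N => hρ2 κ hκ N) hρ
    exact ((ContinuousLinearMap.apply ℂ (EL L) e).continuous.tendsto _).comp h8
  -- nonnegativity of the imaginary parts
  have htm : ∀ m : ℤ, 0 ≤ tm L X y κp e m := by
    intro m
    unfold tm
    rcases lt_or_gt_of_ne (hd m) with h | h
    · have hν : 0 < √(-dd β θ lam m) := Real.sqrt_pos.2 (by linarith)
      rw [hκp, kpl_open h, im_open hKOP hL hX hy m hν]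
      positivity
    · rw [hκp, kpl_closed h, im_closed hKOP hL hX hy m (Complex.conj_ofReal _)]
  -- the imaginary part of the limit vanishes
  have him : (inner ℂ e (KK L X y κp e)).im = 0 := by
    have h1 : inner ℂ e ((a : ℂ) • KK L X y κp e) = inner ℂ e e := by
      have := congrArg (fun v => inner ℂ e v) he
      simpa using this
    rw [inner_smul_right, inner_self_eq_norm_sq_to_K] at h1
    have h2 := congrArg Complex.im h1
    have h3 : ((((‖e‖ : ℝ) : ℂ)) ^ 2).im = 0 := by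
      rw [← Complex.ofReal_pow, Complex.ofReal_im]
    have h4 : ((a : ℂ) * inner ℂ e (KK L X y κp e)).im = a * (inner ℂ e (KK L X y κp e)).im := by
      rw [Complex.mul_im, Complex.ofReal_re, Complex.ofReal_im]; ring
    rw [h4] at h2
    have h5 : a * (inner ℂ e (KK L X y κp e)).im = 0 := by
      rw [h2]; exact h3
    exact (mul_eq_zero.1 h5).resolve_left ha
  have hsum : Tendsto (fun N : ℕ => ∑ m ∈ Finset.Icc (-(N : ℤ)) N, tm L X y κp e m) atTop (𝓝 0) := by
    have h1 : Tendsto (fun N : ℕ => (inner ℂ e (PS L X y κp N e)).im) atTop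
        (𝓝 (inner ℂ e (KK L X y κp e)).im) :=
      (Complex.continuous_im.tendsto _).comp (tendsto_const_nhds.inner (hlim κp hadm))
    rw [him] at h1
    refine h1.congr fun N => ?_
    unfold PS tm
    rw [_root_.sum_apply, inner_sum, Complex.im_sum]
  have hzero : ∀ m : ℤ, tm L X y κp e m = 0 := by
    intro m
    refine le_antisymm ?_ (htm m)
    refine ge_of_tendsto hsum ?_
    filter_upwards [eventually_ge_atTop m.natAbs] with N hN
    refine Finset.single_le_sum (f := fun m => tm L X y κp e m) (fun i _ => htm i) ?_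
    rw [Finset.mem_Icc]
    omega
  -- the modes agree on e
  have hmode : ∀ m : ℤ, Mo L X y m (κm m) e = Mo L X y m (κp m) e := by
    intro m
    rcases lt_or_gt_of_ne (hd m) with h | h
    · have hν : 0 < √(-dd β θ lam m) := Real.sqrt_pos.2 (by linarith)
      set ν := √(-dd β θ lam m) with hνdef
      have h1 := hzero m
      unfold tm at h1
      rw [hκp, kpl_open h, im_open hKOP hL hX hy m hν] at h1
      have h2 : ‖eh L X y e (m, ν / (2 * Real.pi))‖ ^ 2 +
          ‖eh L X y e (m, -(ν / (2 * Real.pi)))‖ ^ 2 = 0 := by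
        rcases mul_eq_zero.1 h1 with h3 | h3
        · exfalso
          have : 0 < 1 / (4 * ν) := by positivity
          linarith
        · exact h3
      have h3 : eh L X y e (m, ν / (2 * Real.pi)) = 0 := by
        have : ‖eh L X y e (m, ν / (2 * Real.pi))‖ ^ 2 = 0 := by
          nlinarith [sq_nonneg ‖eh L X y e (m, ν / (2 * Real.pi))‖,
            sq_nonneg ‖eh L X y e (m, -(ν / (2 * Real.pi)))‖]
        simpa using this
      have h4 : eh L X y e (m, -(ν / (2 * Real.pi))) = 0 := by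
        have : ‖eh L X y e (m, -(ν / (2 * Real.pi)))‖ ^ 2 = 0 := by
          nlinarith [sq_nonneg ‖eh L X y e (m, ν / (2 * Real.pi))‖,
            sq_nonneg ‖eh L X y e (m, -(ν / (2 * Real.pi)))‖]
        simpa using this
      have h5 : Mo L X y m (Complex.I * ν) e = Mo L X y m (-(Complex.I * ν)) e := by
        have k1 : kop L (pk X y m (ν / (2 * Real.pi))) e = 0 := by
          refine ext_inner_left ℂ fun e' => ?_
          rw [pk_inner hKOP hL hX hy, h3, mul_zero, inner_zero_right]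
        have k2 : kop L (pk X y m (-(ν / (2 * Real.pi)))) e = 0 := by
          refine ext_inner_left ℂ fun e' => ?_
          rw [pk_inner hKOP hL hX hy, h4, mul_zero, inner_zero_right]
        rw [Mo_diff hKOP hL hX hy m hν]
        simp only [_root_.add_apply, _root_.smul_apply, k1, k2, add_zero, smul_zero]
      rw [hκp, hκm, kmi_open h, kpl_open h]
      split_ifs
      · exact h5
      · rfl
    · rw [hκp, hκm, kmi_closed h, kpl_closed h]
  have heq : KK L X y κm e = KK L X y κp e := by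
    refine tendsto_nhds_unique (hlim κm hadm2) ((hlim κp hadm).congr fun N => ?_)
    unfold PS
    rw [_root_.sum_apply, _root_.sum_apply]
    exact Finset.sum_congr rfl fun m _ => (hmode m).symm
  have he' : (a : ℂ) • KK L X y κp e = e := he
  change (a : ℂ) • KK L X y κm e = e
  rw [heq, he']

end Pool.Agent.H236.LK773
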