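import Pool.Agent.H236.LK773.YWY

set_option autoImplicit false

/-!
# Project LK (owner helper773), task YS (helper236)
-/

noncomputable section

namespace Pool.Agent.H236.LK773

open MeasureTheory Filter Topology Set
open scoped ENNReal NNReal ComplexConjugate InnerProductSpace FourierTransform

open Pool.Agent.H773.LK

/-- the roots for the energy `-M` -/
def ks (β θ M : ℝ) (m : ℤ) : ℂ := ((√((β * ((m : ℝ) + θ)) ^ 2 + M) : ℝ) : ℂ)

theorem ks_re {β θ M : ℝ} (hM : 0 < M) (m : ℤ) : 0 < (ks β θ M m).re := by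
  unfold ks
  rw [Complex.ofReal_re]
  exact Real.sqrt_pos.2 (by positivity)

theorem ks_sq {β θ M : ℝ} (hM : 0 < M) (m : ℤ) :
    ks β θ M m ^ 2 = (((β * ((m : ℝ) + θ)) ^ 2 + M : ℝ) : ℂ) := by
  unfold ks
  rw [← Complex.ofReal_pow, Real.sq_sqrt (by positivity)]

theorem ks_norm {β θ M : ℝ} (m : ℤ) : √M ≤ ‖ks β θ M m‖ := by
  unfold ks
  rw [Complex.norm_real, Real.norm_eq_abs, abs_of_nonneg (Real.sqrt_nonneg _)]
  exact Real.sqrt_le_sqrt (by nlinarith [sq_nonneg (β * ((m : ℝ) + θ))])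

theorem ks_adm {β θ : ℝ} (hβ : 0 < β) (h0 : 0 < θ) (h1 : θ < 1) :
    Adm β 1 (β + 1) (ks β θ 1) := by
  constructor
  · intro m
    have := ks_norm (β := β) (θ := θ) (M := 1) m
    simpa using this
  · intro m
    unfold ks
    rw [← Complex.ofReal_sub, Complex.norm_real, Real.norm_eq_abs]
    set A : ℝ := |β * ((m : ℝ) + θ)| with hA
    have hA0 : 0 ≤ A := abs_nonneg _
    have e1 : (β * ((m : ℝ) + θ)) ^ 2 = A ^ 2 := (sq_abs _).symm
    rw [e1]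
    have h2 : A ≤ √(A ^ 2 + 1) := Real.le_sqrt_of_sq_le (by linarith)
    have h3 : √(A ^ 2 + 1) ≤ A + 1 := by
      rw [Real.sqrt_le_left (by linarith)]
      nlinarith
    have h4 : |A - β * (|(m : ℝ)|)| ≤ β := by
      have : A = β * |(m : ℝ) + θ| := by rw [hA, abs_mul, abs_of_pos hβ]
      rw [this, ← mul_sub, abs_mul, abs_of_pos hβ]
      have h5 : |(|(m : ℝ) + θ| - |(m : ℝ)|)| ≤ 1 := by
        refine (abs_abs_sub_abs_le_abs_sub _ _).trans ?_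
        rw [add_sub_cancel_left, abs_of_pos h0]
        exact h1.le
      nlinarith
    rw [abs_le] at h4 ⊢
    constructor <;> linarith [h4.1, h4.2]

/-- `|ê|²/(w + M)` -/
def FM (L β : ℝ) (X y : ℝ → ℝ) (M θ : ℝ) (e : EL L) (ξ : ℤ × ℝ) : ℝ :=
  ‖eh L X y e ξ‖ ^ 2 / (ww β θ ξ + M)

theorem FM_nonneg {L β : ℝ} {X y : ℝ → ℝ} {M θ : ℝ} (hM : 0 < M) (e : EL L) (ξ : ℤ × ℝ) :
    0 ≤ FM L β X y M θ e ξ := by
  have := ww_nonneg β θ ξ
  unfold FM
  positivity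

theorem chan_sq (hKOP : S_KOP) {L : ℝ} (hL : 0 < L) {X y : ℝ → ℝ} (hX : Continuous X)
    (hy : Continuous y) (m : ℤ) {β M θ : ℝ} (hM : 0 < M) (e : EL L) :
    Integrable (fun η : ℝ => FM L β X y M θ e (m, η)) ∧
    ((∫ η : ℝ, FM L β X y M θ e (m, η) : ℝ) : ℂ) = inner ℂ e (Mo L X y m (ks β θ M m) e) := by
  have h := chan hKOP hL hX hy m (ks_re (β := β) (θ := θ) hM m) e e
  have h1 : ∀ η : ℝ, conj (eh L X y e (m, η)) * eh L X y e (m, η) /
      (ks β θ M m ^ 2 + ((4 * Real.pi ^ 2 * η ^ 2 : ℝ) : ℂ)) =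
      ((FM L β X y M θ e (m, η) : ℝ) : ℂ) := by
    intro η
    rw [mul_comm (conj _), Complex.mul_conj, ks_sq hM, Complex.normSq_eq_norm_sq]
    unfold FM ww
    push_cast
    congr 1
    ring
  simp only [h1] at h
  refine ⟨?_, ?_⟩
  · have := h.1.re
    simpa using this
  · rw [← h.2]
    exact (integral_complex_ofReal).symm

theorem eh_cont2 {L : ℝ} {X y : ℝ → ℝ} (hX : Continuous X) (hy : Continuous y) (e : EL L) :
    Continuous (eh L X y e) :=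
  continuous_prod_of_discrete_left.2 fun m => eh_cont hX hy e m

theorem ww_cont (β θ : ℝ) : Continuous (ww β θ) := by
  refine continuous_prod_of_discrete_left.2 fun m => ?_
  unfold ww
  fun_prop

theorem FM_cont {L β : ℝ} {X y : ℝ → ℝ} (hX : Continuous X) (hy : Continuous y) {M θ : ℝ}
    (hM : 0 < M) (e : EL L) : Continuous (FM L β X y M θ e) := by
  unfold FM
  exact ((eh_cont2 hX hy e).norm.pow 2).div ((ww_cont β θ).add continuous_const)
    fun ξ => by have := ww_nonneg β θ ξ; positivity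

theorem FM_mono {L β : ℝ} {X y : ℝ → ℝ} {M θ : ℝ} (hM : 1 ≤ M) (e : EL L) (ξ : ℤ × ℝ) :
    FM L β X y M θ e ξ ≤ FM L β X y 1 θ e ξ := by
  unfold FM
  have := ww_nonneg β θ ξ
  gcongr


theorem Mo_norm (hKOP : S_KOP) {L : ℝ} (hL : 0 < L) {X y : ℝ → ℝ} (hX : Continuous X)
    (hy : Continuous y) (m : ℤ) {β M θ : ℝ} (hM : 0 < M) :
    ‖Mo L X y m (ks β θ M m)‖ ≤ L / (2 * √M) := by
  have h := ((hKOP L hL).1 _ (mk_cont hX hy m (ks β θ M m))).2.1
  have hs : 0 < √M := Real.sqrt_pos.2 hM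
  have h1 : ∀ s t : ℝ, ‖Pool.Agent.H773.LK.mk X y m (ks β θ M m) s t‖ ^ 2 ≤ (1 / (2 * √M)) ^ 2 := by
    intro s t
    have hk := ks_norm (β := β) (θ := θ) (M := M) m
    have : ‖Pool.Agent.H773.LK.mk X y m (ks β θ M m) s t‖ ≤ 1 / (2 * √M) := by
      unfold Pool.Agent.H773.LK.mk
      rw [norm_div, norm_mul]
      have e1 : ‖Complex.exp (Complex.I * ((m : ℂ) * ((X s - X t : ℝ) : ℂ)))‖ = 1 := by
        have : Complex.I * ((m : ℂ) * ((X s - X t : ℝ) : ℂ)) =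
            (((m : ℝ) * (X s - X t) : ℝ) : ℂ) * Complex.I := by push_cast; ring
        rw [this, Complex.norm_exp_ofReal_mul_I]
      have e2 : ‖Complex.exp (-(ks β θ M m * ((|y s - y t| : ℝ) : ℂ)))‖ ≤ 1 := by
        rw [Complex.norm_exp]
        have : (-(ks β θ M m * ((|y s - y t| : ℝ) : ℂ))).re ≤ 0 := by
          unfold ks
          rw [← Complex.ofReal_mul, ← Complex.ofReal_neg, Complex.ofReal_re]
          have := mul_nonneg (Real.sqrt_nonneg ((β * ((m : ℝ) + θ)) ^ 2 + M)) (abs_nonneg (y s - y t))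
          linarith
        exact Real.exp_le_one_iff.2 this
      rw [e1, one_mul, norm_mul, Complex.norm_two]
      exact div_le_div₀ zero_le_one e2 (by positivity) (by linarith)
    exact pow_le_pow_left₀ (norm_nonneg _) this 2
  have h2 : ∫ s in Ioc (0 : ℝ) L, ∫ t in Ioc (0 : ℝ) L,
      ‖Pool.Agent.H773.LK.mk X y m (ks β θ M m) s t‖ ^ 2 ≤ L ^ 2 * (1 / (2 * √M)) ^ 2 := by
    have a1 : ∀ s : ℝ, ∫ t in Ioc (0 : ℝ) L,
        ‖Pool.Agent.H773.LK.mk X y m (ks β θ M m) s t‖ ^ 2 ≤ L * (1 / (2 * √M)) ^ 2 := by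
      intro s
      have : ∫ t in Ioc (0 : ℝ) L, ‖Pool.Agent.H773.LK.mk X y m (ks β θ M m) s t‖ ^ 2 ≤
          ∫ t in Ioc (0 : ℝ) L, (1 / (2 * √M)) ^ 2 := by
        refine integral_mono_of_nonneg (Eventually.of_forall fun t => by positivity)
          (integrable_const _) (Eventually.of_forall fun t => h1 s t)
      refine this.trans (le_of_eq ?_)
      simp [hL.le]
    have : ∫ s in Ioc (0 : ℝ) L, ∫ t in Ioc (0 : ℝ) L,
        ‖Pool.Agent.H773.LK.mk X y m (ks β θ M m) s t‖ ^ 2 ≤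
        ∫ s in Ioc (0 : ℝ) L, L * (1 / (2 * √M)) ^ 2 := by
      refine integral_mono_of_nonneg (Eventually.of_forall fun s => ?_)
          (integrable_const _) (Eventually.of_forall fun s => a1 s)
      exact integral_nonneg fun t => by positivity
    refine this.trans (le_of_eq ?_)
    simp [hL.le]
    ring
  have h3 : ‖Mo L X y m (ks β θ M m)‖ ^ 2 ≤ (L / (2 * √M)) ^ 2 := by
    refine (h.trans h2).trans (le_of_eq ?_)
    ring
  exact le_of_sq_le_sq h3 (by positivity)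

/-- integral over one channel -/
def Sm (L β : ℝ) (X y : ℝ → ℝ) (M θ : ℝ) (e : EL L) (m : ℤ) : ℝ :=
  ∫ η : ℝ, FM L β X y M θ e (m, η)

theorem Sm_nonneg {L β : ℝ} {X y : ℝ → ℝ} {M θ : ℝ} (hM : 0 < M) (e : EL L) (m : ℤ) :
    0 ≤ Sm L β X y M θ e m := integral_nonneg fun η => FM_nonneg hM e _

theorem Sm_mono (hKOP : S_KOP) {L : ℝ} (hL : 0 < L) {X y : ℝ → ℝ} (hX : Continuous X)
    (hy : Continuous y) {β M θ : ℝ} (hM : 1 ≤ M) (e : EL L) (m : ℤ) :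
    Sm L β X y M θ e m ≤ Sm L β X y 1 θ e m :=
  integral_mono (chan_sq hKOP hL hX hy m (by linarith) e).1 (chan_sq hKOP hL hX hy m one_pos e).1
    fun η => FM_mono hM e _

theorem Sm_sum (hKOP : S_KOP) {L : ℝ} (hL : 0 < L) {X y : ℝ → ℝ} (hX : Continuous X)
    (hy : Continuous y) {β M θ : ℝ} (hM : 0 < M) (e : EL L) (s : Finset ℤ) :
    ((∑ m ∈ s, Sm L β X y M θ e m : ℝ) : ℂ) =
      inner ℂ e ((∑ m ∈ s, Mo L X y m (ks β θ M m)) e) := by
  rw [Complex.ofReal_sum, _root_.sum_apply, inner_sum]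
  exact Finset.sum_congr rfl fun m _ => (chan_sq hKOP hL hX hy m hM e).2

theorem hasSum_mZR_real {h : ℤ × ℝ → ℝ} (hh : Integrable h mZR) :
    HasSum (fun m : ℤ => ∫ η : ℝ, h (m, η)) (∫ ξ, h ξ ∂mZR) := by
  have h1 : Integrable (fun m : ℤ => ∫ η : ℝ, h (m, η)) (Measure.count : Measure ℤ) :=
    hh.integral_prod_left
  rw [integral_prod h hh, integral_countable h1]
  have h2 : Summable (fun m : ℤ => ∫ η : ℝ, h (m, η)) := (integrable_count_iff.1 h1).of_norm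
  have h3 : (fun m : ℤ => (Measure.count : Measure ℤ).real {m} • ∫ η : ℝ, h (m, η)) =
      fun m : ℤ => ∫ η : ℝ, h (m, η) := by
    funext m
    simp [measureReal_def]
  rw [h3]
  exact h2.hasSum

theorem Icc_mono {N N' : ℕ} (h : N ≤ N') :
    Finset.Icc (-(N : ℤ)) N ⊆ Finset.Icc (-(N' : ℤ)) N' := by
  refine Finset.Icc_subset_Icc ?_ ?_ <;> omega

theorem exists_Icc (s : Finset ℤ) (N : ℕ) :
    ∃ N' : ℕ, N ≤ N' ∧ s ⊆ Finset.Icc (-(N' : ℤ)) N' := by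
  refine ⟨N + ∑ m ∈ s, m.natAbs, by omega, fun m hm => ?_⟩
  have h1 : m.natAbs ≤ ∑ m ∈ s, m.natAbs := Finset.single_le_sum (fun _ _ => Nat.zero_le _) hm
  rw [Finset.mem_Icc]
  omega

theorem bound_fin (hKOP : S_KOP) {L : ℝ} {β : ℝ} {X y : ℝ → ℝ} (hc : Crv L β X y)
    {ρ : ℕ → ℝ} (hρ : Tendsto ρ atTop (𝓝 0))
    (hρ2 : ∀ κ : ℤ → ℂ, Adm β 1 (β + 1) κ → ∀ N, ‖PS L X y κ N - KK L X y κ‖ ≤ ρ N)
    (N : ℕ) {M θ : ℝ} (hM : 1 ≤ M) (h0 : 0 < θ) (h1 : θ < 1) (e : EL L) (s : Finset ℤ) :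
    ∑ m ∈ s, Sm L β X y M θ e m ≤ ((2 * N + 1) * (L / (2 * √M)) + ρ N) * ‖e‖ ^ 2 := by
  have hM0 : 0 < M := by linarith
  have hadm := ks_adm hc.β_pos h0 h1
  obtain ⟨N', hN', hs⟩ := exists_Icc s N
  have hdis := Finset.sum_sdiff (f := fun m => Sm L β X y M θ e m) (Icc_mono hN')
  have hp : ∀ m, 0 ≤ Sm L β X y M θ e m := Sm_nonneg hM0 e
  have hp1 : ∀ m, 0 ≤ Sm L β X y 1 θ e m := Sm_nonneg one_pos e
  have e1 : ∑ m ∈ s, Sm L β X y M θ e m ≤ ∑ m ∈ Finset.Icc (-(N' : ℤ)) N', Sm L β X y M θ e m :=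
    Finset.sum_le_sum_of_subset_of_nonneg hs fun m _ _ => hp m
  -- the first channels
  have e2 : ∑ m ∈ Finset.Icc (-(N : ℤ)) N, Sm L β X y M θ e m ≤
      (2 * N + 1) * (L / (2 * √M)) * ‖e‖ ^ 2 := by
    have a1 : ∀ m ∈ Finset.Icc (-(N : ℤ)) N, Sm L β X y M θ e m ≤ L / (2 * √M) * ‖e‖ ^ 2 := by
      intro m _
      have b1 := (chan_sq hKOP hc.L_pos hc.X_cont hc.y_cont m (β := β) (θ := θ) hM0 e).2
      have b2 : ‖((Sm L β X y M θ e m : ℝ) : ℂ)‖ ≤ L / (2 * √M) * ‖e‖ ^ 2 := by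
        rw [Sm, b1]
        calc ‖inner ℂ e (Mo L X y m (ks β θ M m) e)‖ ≤ ‖e‖ * ‖Mo L X y m (ks β θ M m) e‖ :=
              norm_inner_le_norm _ _
          _ ≤ ‖e‖ * (L / (2 * √M) * ‖e‖) := by
              gcongr
              exact ContinuousLinearMap.le_of_opNorm_le _
                (Mo_norm hKOP hc.L_pos hc.X_cont hc.y_cont m hM0) e
          _ = _ := by ring
      rw [Complex.norm_real, Real.norm_eq_abs] at b2
      exact (le_abs_self _).trans b2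
    refine (Finset.sum_le_sum a1).trans (le_of_eq ?_)
    rw [Finset.sum_const, Int.card_Icc, nsmul_eq_mul]
    have : ((N : ℤ) + 1 - -(N : ℤ)).toNat = 2 * N + 1 := by omega
    rw [this]
    push_cast
    ring
  -- the other channels
  have e3 : ∑ m ∈ Finset.Icc (-(N' : ℤ)) N' \ Finset.Icc (-(N : ℤ)) N, Sm L β X y M θ e m ≤
      ρ N * ‖e‖ ^ 2 := by
    have a1 : ∑ m ∈ Finset.Icc (-(N' : ℤ)) N' \ Finset.Icc (-(N : ℤ)) N, Sm L β X y M θ e m ≤
        ∑ m ∈ Finset.Icc (-(N' : ℤ)) N' \ Finset.Icc (-(N : ℤ)) N, Sm L β X y 1 θ e m :=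
      Finset.sum_le_sum fun m _ => Sm_mono hKOP hc.L_pos hc.X_cont hc.y_cont hM e m
    refine a1.trans ?_
    set κ := ks β θ 1 with hκ
    have a2 : Tendsto (fun K : ℕ => (inner ℂ e ((PS L X y κ K - PS L X y κ N) e)).re) atTop
        (𝓝 (inner ℂ e ((KK L X y κ - PS L X y κ N) e)).re) := by
      have h8 : Tendsto (fun K : ℕ => PS L X y κ K) atTop (𝓝 (KK L X y κ)) := by
        rw [tendsto_iff_norm_sub_tendsto_zero]
        exact squeeze_zero (fun K => norm_nonneg _) (fun K => hρ2 κ hadm K) hρ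
      have h9 := ((ContinuousLinearMap.apply ℂ (EL L) e).continuous.tendsto _).comp
        (h8.sub (tendsto_const_nhds (x := PS L X y κ N)))
      exact (Complex.continuous_re.tendsto _).comp (tendsto_const_nhds.inner h9)
    have a3 : ∀ᶠ K : ℕ in atTop,
        ∑ m ∈ Finset.Icc (-(N' : ℤ)) N' \ Finset.Icc (-(N : ℤ)) N, Sm L β X y 1 θ e m ≤
        (inner ℂ e ((PS L X y κ K - PS L X y κ N) e)).re := by
      filter_upwards [eventually_ge_atTop N'] with K hK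
      have b1 : PS L X y κ K - PS L X y κ N =
          ∑ m ∈ Finset.Icc (-(K : ℤ)) K \ Finset.Icc (-(N : ℤ)) N, Mo L X y m (κ m) := by
        unfold PS
        rw [sub_eq_iff_eq_add]
        exact (Finset.sum_sdiff (Icc_mono (hN'.trans hK))).symm
      rw [b1, ← Sm_sum hKOP hc.L_pos hc.X_cont hc.y_cont one_pos e, Complex.ofReal_re]
      exact Finset.sum_le_sum_of_subset_of_nonneg
        (Finset.sdiff_subset_sdiff (Icc_mono hK) subset_rfl) fun m _ _ => hp1 m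
    refine (ge_of_tendsto a2 a3).trans ?_
    calc (inner ℂ e ((KK L X y κ - PS L X y κ N) e)).re
        ≤ ‖inner ℂ e ((KK L X y κ - PS L X y κ N) e)‖ := Complex.re_le_norm _
      _ ≤ ‖e‖ * ‖(KK L X y κ - PS L X y κ N) e‖ := norm_inner_le_norm _ _
      _ ≤ ‖e‖ * (ρ N * ‖e‖) := by
          gcongr
          refine ContinuousLinearMap.le_of_opNorm_le _ ?_ e
          rw [norm_sub_rev]
          exact hρ2 κ hadm N
      _ = _ := by ring
  rw [← hdis] at e1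
  linarith

theorem bound (hKOP : S_KOP) (hCONV : S_CONV) {L : ℝ} {β : ℝ} {X y : ℝ → ℝ} (hc : Crv L β X y)
    {a : ℝ} (ha : 0 < a) : ∃ M : ℝ, 1 ≤ M ∧ ∀ θ : ℝ, 0 < θ → θ < 1 → ∀ e : EL L,
      Integrable (FM L β X y M θ e) mZR ∧
      ∫ ξ, FM L β X y M θ e ξ ∂mZR ≤ 1 / (2 * a) * ‖e‖ ^ 2 := by
  obtain ⟨ρ, hρ, hρ2⟩ := hCONV L β X y hc 1 (β + 1) one_pos
  obtain ⟨N, hN⟩ := ((hρ.eventually (gt_mem_nhds (show (0 : ℝ) < 1 / (4 * a) by positivity))).exists)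
  set R : ℝ := 2 * a * (2 * N + 1) * L with hR
  have hR0 : 0 < R := by have := hc.L_pos; rw [hR]; positivity
  refine ⟨1 + R ^ 2, by nlinarith, fun θ h0 h1 e => ?_⟩
  set M : ℝ := 1 + R ^ 2 with hM
  have hM1 : 1 ≤ M := by rw [hM]; nlinarith
  have hM0 : 0 < M := by linarith
  have hs : R ≤ √M := Real.le_sqrt_of_sq_le (by rw [hM]; linarith)
  have hs0 : 0 < √M := by linarith
  have hB : ((2 * N + 1) * (L / (2 * √M)) + ρ N) * ‖e‖ ^ 2 ≤ 1 / (2 * a) * ‖e‖ ^ 2 := by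
    have c1 : (2 * N + 1) * (L / (2 * √M)) ≤ 1 / (4 * a) := by
      rw [mul_div_assoc', div_le_div_iff₀ (by positivity) (by positivity)]
      calc (2 * N + 1) * L * (4 * a) = 2 * R := by rw [hR]; ring
        _ ≤ 1 * (2 * √M) := by linarith
    have c2 : (1 : ℝ) / (2 * a) = 1 / (4 * a) + 1 / (4 * a) := by field_simp; ring
    have c3 : (2 * N + 1) * (L / (2 * √M)) + ρ N ≤ 1 / (2 * a) := by linarith [hN.le]
    exact mul_le_mul_of_nonneg_right c3 (by positivity)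
  have hfin : ∀ s : Finset ℤ, ∑ m ∈ s, Sm L β X y M θ e m ≤ 1 / (2 * a) * ‖e‖ ^ 2 :=
    fun s => (bound_fin hKOP hc hρ hρ2 N hM1 h0 h1 e s).trans hB
  have hsum : Summable (Sm L β X y M θ e) := summable_of_sum_le (fun m => Sm_nonneg hM0 e m) hfin
  have hint : Integrable (FM L β X y M θ e) mZR := by
    rw [integrable_prod_iff (FM_cont hc.X_cont hc.y_cont hM0 e).aestronglyMeasurable]
    refine ⟨Eventually.of_forall fun m =>
      (chan_sq hKOP hc.L_pos hc.X_cont hc.y_cont m hM0 e).1, ?_⟩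
    rw [integrable_count_iff]
    have : (fun m : ℤ => ‖∫ η : ℝ, ‖FM L β X y M θ e (m, η)‖‖) = Sm L β X y M θ e := by
      funext m
      have : ∀ η : ℝ, ‖FM L β X y M θ e (m, η)‖ = FM L β X y M θ e (m, η) := fun η => by
        rw [Real.norm_eq_abs, abs_of_nonneg (FM_nonneg hM0 e _)]
      simp only [this]
      exact (Real.norm_eq_abs _).trans (abs_of_nonneg (Sm_nonneg hM0 e m))
    rw [this]
    exact hsum
  refine ⟨hint, ?_⟩
  rw [← (hasSum_mZR_real hint).tsum_eq]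
  exact hsum.tsum_le_of_sum_le hfin

/-- the function `ê / √(w + M)` -/
def ye (L β : ℝ) (X y : ℝ → ℝ) (M θ : ℝ) (e : EL L) (ξ : ℤ × ℝ) : ℂ :=
  eh L X y e ξ / ((√(ww β θ ξ + M) : ℝ) : ℂ)

theorem ye_cont {L β : ℝ} {X y : ℝ → ℝ} (hX : Continuous X) (hy : Continuous y) {M θ : ℝ}
    (hM : 0 < M) (e : EL L) : Continuous (ye L β X y M θ e) := by
  unfold ye
  refine (eh_cont2 hX hy e).div ?_ fun ξ => ?_
  · exact Complex.continuous_ofReal.comp (((ww_cont β θ).add continuous_const).sqrt)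
  · have := ww_nonneg β θ ξ
    have h2 : 0 < √(ww β θ ξ + M) := Real.sqrt_pos.2 (by linarith)
    exact_mod_cast h2.ne'

theorem ye_norm {L β : ℝ} {X y : ℝ → ℝ} {M θ : ℝ} (hM : 0 < M) (e : EL L) (ξ : ℤ × ℝ) :
    ‖ye L β X y M θ e ξ‖ ^ 2 = FM L β X y M θ e ξ := by
  have := ww_nonneg β θ ξ
  unfold ye FM
  rw [norm_div, div_pow, Complex.norm_real, Real.norm_eq_abs, sq_abs, Real.sq_sqrt (by linarith)]

theorem eh_add {L : ℝ} {X y : ℝ → ℝ} (hX : Continuous X) (hy : Continuous y) (e e' : EL L)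
    (ξ : ℤ × ℝ) : eh L X y (e + e') ξ = eh L X y e ξ + eh L X y e' ξ := by
  obtain ⟨m, η⟩ := ξ
  have hi : ∀ e : EL L, Integrable (fun s => ph X y m η s * e s)
      (volume.restrict (Ioc (0 : ℝ) L)) := fun e =>
    (EL_int e).bdd_mul (c := 1)
      ((ph_cont hX hy m).comp (Continuous.prodMk_right η)).aestronglyMeasurable
      (Eventually.of_forall fun s => (ph_norm X y m η s).le)
  rw [eh_eq, eh_eq, eh_eq, ← integral_add (hi e) (hi e')]
  refine integral_congr_ae ?_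
  filter_upwards [Lp.coeFn_add e e'] with s hs
  rw [hs, Pi.add_apply, mul_add]

theorem eh_smul {L : ℝ} {X y : ℝ → ℝ} (c : ℂ) (e : EL L) (ξ : ℤ × ℝ) :
    eh L X y (c • e) ξ = c * eh L X y e ξ := by
  obtain ⟨m, η⟩ := ξ
  rw [eh_eq, eh_eq, ← integral_const_mul]
  refine integral_congr_ae ?_
  filter_upwards [Lp.coeFn_smul c e] with s hs
  rw [hs, Pi.smul_apply, smul_eq_mul]
  ring

theorem exists_Ys {L β : ℝ} {X y : ℝ → ℝ} (hX : Continuous X) (hy : Continuous y) {M θ C : ℝ}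
    (hM : 0 < M) (hC : 0 ≤ C) (h : ∀ e : EL L, Integrable (FM L β X y M θ e) mZR ∧
      ∫ ξ, FM L β X y M θ e ξ ∂mZR ≤ C * ‖e‖ ^ 2) :
    ∃ Ys : EL L →L[ℂ] FF, IsYs L β X y M θ Ys ∧ ‖Ys‖ ^ 2 ≤ C := by
  have hm : ∀ e : EL L, MemLp (ye L β X y M θ e) 2 mZR := by
    intro e
    rw [memLp_two_iff_integrable_sq_norm (ye_cont hX hy hM e).aestronglyMeasurable]
    simp only [ye_norm hM]
    exact (h e).1
  have hn : ∀ e : EL L, ‖(hm e).toLp _‖ ≤ √C * ‖e‖ := by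
    intro e
    have h1 : ‖(hm e).toLp _‖ ^ 2 ≤ C * ‖e‖ ^ 2 := by
      have h2 : ((‖(hm e).toLp _‖ ^ 2 : ℝ) : ℂ) = ((∫ ξ, FM L β X y M θ e ξ ∂mZR : ℝ) : ℂ) := by
        have h3 := L2.inner_def (𝕜 := ℂ) ((hm e).toLp _) ((hm e).toLp _)
        rw [inner_self_eq_norm_sq_to_K] at h3
        have h4 : (∫ ξ, inner ℂ (((hm e).toLp _ : FF) ξ) (((hm e).toLp _ : FF) ξ) ∂mZR) =
            ∫ ξ, ((FM L β X y M θ e ξ : ℝ) : ℂ) ∂mZR := by
          refine integral_congr_ae ?_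
          filter_upwards [(hm e).coeFn_toLp] with ξ hξ
          rw [hξ, inner_self_eq_norm_sq_to_K, ← ye_norm hM]
          norm_cast
        rw [h4] at h3
        have h5 : (∫ ξ, ((FM L β X y M θ e ξ : ℝ) : ℂ) ∂mZR) =
            ((∫ ξ, FM L β X y M θ e ξ ∂mZR : ℝ) : ℂ) := integral_complex_ofReal
        rw [h5] at h3
        rw [← h3]
        norm_cast
      have h6 : ‖(hm e).toLp _‖ ^ 2 = ∫ ξ, FM L β X y M θ e ξ ∂mZR := by exact_mod_cast h2
      rw [h6]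
      exact (h e).2
    have h7 : ‖(hm e).toLp _‖ ^ 2 ≤ (√C * ‖e‖) ^ 2 := by
      rw [mul_pow, Real.sq_sqrt hC]; exact h1
    exact le_of_sq_le_sq h7 (by positivity)
  let T : EL L →ₗ[ℂ] FF :=
    { toFun := fun e => (hm e).toLp _
      map_add' := fun e e' => by
        rw [← MemLp.toLp_add]
        refine MemLp.toLp_congr _ _ (Eventually.of_forall fun ξ => ?_)
        simp only [ye, Pi.add_apply, eh_add hX hy, add_div]
      map_smul' := fun c e => by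
        rw [RingHom.id_apply, ← MemLp.toLp_const_smul]
        refine MemLp.toLp_congr _ _ (Eventually.of_forall fun ξ => ?_)
        simp only [ye, Pi.smul_apply, smul_eq_mul, eh_smul, mul_div_assoc] }
  refine ⟨T.mkContinuous (√C) hn, fun e => ?_, ?_⟩
  · exact (hm e).coeFn_toLp
  · have h8 := T.mkContinuous_norm_le (Real.sqrt_nonneg C) hn
    calc ‖T.mkContinuous (√C) hn‖ ^ 2 ≤ (√C) ^ 2 := pow_le_pow_left₀ (norm_nonneg _) h8 2
      _ = C := Real.sq_sqrt hC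

theorem Ys_lip {L β : ℝ} {X y : ℝ → ℝ} (hβ : 0 < β) {M θ θ' : ℝ}
    (hM : 0 < M) {Ys Ys' : EL L →L[ℂ] FF} (h : IsYs L β X y M θ Ys) (h' : IsYs L β X y M θ' Ys') :
    ‖Ys - Ys'‖ ≤ β / √M * |θ - θ'| * ‖Ys‖ := by
  have hs : 0 < √M := Real.sqrt_pos.2 hM
  refine ContinuousLinearMap.opNorm_le_bound _ (by positivity) fun e => ?_
  have h1 : ‖(Ys - Ys') e‖ ≤ β / √M * |θ - θ'| * ‖Ys e‖ := by
    refine Lp.norm_le_mul_norm_of_ae_le_mul ?_
    have h2 : ((Ys - Ys') e : ℤ × ℝ → ℂ) =ᵐ[mZR] fun ξ => Ys e ξ - Ys' e ξ := by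
      exact Lp.coeFn_sub _ _
    filter_upwards [h e, h' e, h2] with ξ a1 a2 a3
    rw [a3, a1, a2]
    have p1 : 0 < ww β θ ξ + M := by linarith [ww_nonneg β θ ξ]
    have p2 : 0 < ww β θ' ξ + M := by linarith [ww_nonneg β θ' ξ]
    set A : ℝ := ww β θ ξ + M with hA
    set B : ℝ := ww β θ' ξ + M with hB
    have q1 : 0 < √A := Real.sqrt_pos.2 p1
    have q2 : 0 < √B := Real.sqrt_pos.2 p2
    have r1 : β * |(ξ.1 : ℝ) + θ| ≤ √A := by
      refine Real.le_sqrt_of_sq_le ?_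
      rw [mul_pow, sq_abs, hA]
      unfold ww
      nlinarith [sq_nonneg (2 * Real.pi * ξ.2)]
    have r2 : β * |(ξ.1 : ℝ) + θ'| ≤ √B := by
      refine Real.le_sqrt_of_sq_le ?_
      rw [mul_pow, sq_abs, hB]
      unfold ww
      nlinarith [sq_nonneg (2 * Real.pi * ξ.2)]
    have r3 : √M ≤ √B := Real.sqrt_le_sqrt (by linarith [ww_nonneg β θ' ξ])
    have hAB : A - B = β ^ 2 * ((θ - θ') * (((ξ.1 : ℝ) + θ) + ((ξ.1 : ℝ) + θ'))) := by
      rw [hA, hB]; unfold ww; ring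
    have hAB2 : |A - B| ≤ β * |θ - θ'| * (√A + √B) := by
      rw [hAB, abs_mul, abs_mul, abs_of_pos (by positivity : (0:ℝ) < β ^ 2)]
      have := abs_add_le ((ξ.1 : ℝ) + θ) ((ξ.1 : ℝ) + θ')
      calc β ^ 2 * (|θ - θ'| * |((ξ.1 : ℝ) + θ) + ((ξ.1 : ℝ) + θ')|)
          ≤ β ^ 2 * (|θ - θ'| * (|(ξ.1 : ℝ) + θ| + |(ξ.1 : ℝ) + θ'|)) := by gcongr
        _ = β * |θ - θ'| * (β * |(ξ.1 : ℝ) + θ| + β * |(ξ.1 : ℝ) + θ'|) := by ring
        _ ≤ β * |θ - θ'| * (√A + √B) := by gcongr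
    have hdiff : |1 / √A - 1 / √B| ≤ β / √M * |θ - θ'| * (1 / √A) := by
      have e1 : 1 / √A - 1 / √B = (B - A) / (√A * √B * (√A + √B)) := by
        have s1 : √A * √A = A := Real.mul_self_sqrt p1.le
        have s2 : √B * √B = B := Real.mul_self_sqrt p2.le
        have e0 : B - A = (√B - √A) * (√B + √A) := by linear_combination s1 - s2
        rw [div_sub_div _ _ q1.ne' q2.ne', div_eq_div_iff (by positivity) (by positivity), e0]
        ring
      rw [e1, abs_div, abs_sub_comm, abs_of_pos (by positivity : 0 < √A * √B * (√A + √B)),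
        div_le_iff₀ (by positivity)]
      have e2 : β / √M * |θ - θ'| * (1 / √A) * (√A * √B * (√A + √B)) =
          (√B / √M) * (β * |θ - θ'| * (√A + √B)) := by
        field_simp
      rw [e2]
      have e3 : 1 ≤ √B / √M := by rw [le_div_iff₀ hs]; linarith
      have e4 : 0 ≤ β * |θ - θ'| * (√A + √B) := by positivity
      nlinarith
    have f1 : eh L X y e ξ / ((√A : ℝ) : ℂ) - eh L X y e ξ / ((√B : ℝ) : ℂ) =
        eh L X y e ξ * ((1 / √A - 1 / √B : ℝ) : ℂ) := by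
      push_cast; ring
    rw [f1, norm_mul, norm_div, Complex.norm_real, Complex.norm_real, Real.norm_eq_abs,
      Real.norm_eq_abs, abs_of_pos q1]
    calc ‖eh L X y e ξ‖ * |1 / √A - 1 / √B|
        ≤ ‖eh L X y e ξ‖ * (β / √M * |θ - θ'| * (1 / √A)) := by gcongr
      _ = _ := by ring
  calc ‖(Ys - Ys') e‖ ≤ β / √M * |θ - θ'| * ‖Ys e‖ := h1
    _ ≤ β / √M * |θ - θ'| * (‖Ys‖ * ‖e‖) := by gcongr; exact Ys.le_opNorm e
    _ = _ := by ring

/-- **YS.** -/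
theorem t_YS (hKOP : S_KOP) (hCONV : S_CONV) : S_YS := by
  intro L β X y hc a ha
  obtain ⟨M, hM1, hM⟩ := bound hKOP hCONV hc ha
  have hM0 : 0 < M := by linarith
  have hex : ∀ θ : ℝ, ∃ Ys : EL L →L[ℂ] FF, 0 < θ → θ < 1 →
      (IsYs L β X y M θ Ys ∧ ‖Ys‖ ^ 2 ≤ 1 / (2 * a)) := by
    intro θ
    by_cases h : 0 < θ ∧ θ < 1
    · obtain ⟨Ys, h1, h2⟩ := exists_Ys hc.X_cont hc.y_cont hM0 (by positivity) (hM θ h.1 h.2)
      exact ⟨Ys, fun _ _ => ⟨h1, h2⟩⟩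
    · exact ⟨0, fun h0 h1 => absurd ⟨h0, h1⟩ h⟩
  choose Ys hYs using hex
  refine ⟨M, Ys, hM0, fun θ h0 h1 => ⟨(hYs θ h0 h1).1, ?_⟩, ?_⟩
  · calc a * ‖Ys θ‖ ^ 2 ≤ a * (1 / (2 * a)) := by gcongr; exact (hYs θ h0 h1).2
      _ = 1 / 2 := by field_simp
  · have hK : ∀ θ ∈ Ioo (0 : ℝ) 1, ‖Ys θ‖ ≤ √(1 / (2 * a)) := fun θ hθ =>
      Real.le_sqrt_of_sq_le (hYs θ hθ.1 hθ.2).2
    have hl : LipschitzOnWith (Real.toNNReal (β / √M * √(1 / (2 * a)))) Ys (Ioo 0 1) := by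
      refine LipschitzOnWith.of_dist_le_mul fun θ hθ θ' hθ' => ?_
      have hβ := hc.β_pos
      rw [dist_eq_norm, Real.coe_toNNReal _ (by positivity), Real.dist_eq]
      refine (Ys_lip hβ hM0 (hYs θ hθ.1 hθ.2).1 (hYs θ' hθ'.1 hθ'.2).1).trans ?_
      calc β / √M * |θ - θ'| * ‖Ys θ‖ ≤ β / √M * |θ - θ'| * √(1 / (2 * a)) := by
            gcongr
            exact hK θ hθ
        _ = _ := by ring
    exact hl.continuousOn

end Pool.Agent.H236.LK773
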