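import Pool.Agent.H236.LK773.Chan

set_option autoImplicit false

/-!
# Project LK (owner helper773), task YWY (helper236)
-/

noncomputable section

namespace Pool.Agent.H236.LK773

open MeasureTheory Filter Topology Set
open scoped ENNReal NNReal ComplexConjugate InnerProductSpace FourierTransform

open Pool.Agent.H773.LK

theorem hasSum_mZR {h : ℤ × ℝ → ℂ} (hh : Integrable h mZR) :
    HasSum (fun m : ℤ => ∫ η : ℝ, h (m, η)) (∫ ξ, h ξ ∂mZR) := by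
  have h1 : Integrable (fun m : ℤ => ∫ η : ℝ, h (m, η)) (Measure.count : Measure ℤ) :=
    hh.integral_prod_left
  rw [integral_prod h hh, integral_countable h1]
  have h2 : Summable (fun m : ℤ => ∫ η : ℝ, h (m, η)) := (integrable_count_iff.1 h1).of_norm
  have h3 : (fun m : ℤ => (Measure.count : Measure ℤ).real {m} • ∫ η : ℝ, h (m, η)) =
      fun m : ℤ => ∫ η : ℝ, h (m, η) := by
    funext m
    simp [measureReal_def]
  rw [h3]
  exact h2.hasSum

theorem sum_Icc {f : ℤ → ℂ} {a : ℂ} (h : HasSum f a) :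
    Tendsto (fun N : ℕ => ∑ m ∈ Finset.Icc (-(N : ℤ)) N, f m) atTop (𝓝 a) := by
  have h1 : Tendsto (fun s : Finset ℤ => ∑ b ∈ s, f b) atTop (𝓝 a) := by
    simpa [HasSum] using h
  exact h1.comp Finset.tendsto_Icc_neg

theorem ww_nonneg (β θ : ℝ) (ξ : ℤ × ℝ) : 0 ≤ ww β θ ξ := by
  unfold ww; positivity

/-- the integrand of the inner product -/
theorem inner_eq {L β : ℝ} {X y : ℝ → ℝ} {M θ : ℝ} (hM : 0 < M) {Ys : EL L →L[ℂ] FF}
    (hYs : IsYs L β X y M θ Ys) (b : ℤ × ℝ → ℂ) {W : FF →L[ℂ] FF} (hW : IsMop b W)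
    (e' e : EL L) :
    Integrable (fun ξ => conj (eh L X y e' ξ) * eh L X y e ξ * (b ξ / ((ww β θ ξ + M : ℝ) : ℂ))) mZR ∧
    inner ℂ (Ys e') (W (Ys e)) =
      ∫ ξ, conj (eh L X y e' ξ) * eh L X y e ξ * (b ξ / ((ww β θ ξ + M : ℝ) : ℂ)) ∂mZR := by
  have hae : (fun ξ => inner ℂ ((Ys e' : ℤ × ℝ → ℂ) ξ) ((W (Ys e) : ℤ × ℝ → ℂ) ξ)) =ᵐ[mZR]
      fun ξ => conj (eh L X y e' ξ) * eh L X y e ξ * (b ξ / ((ww β θ ξ + M : ℝ) : ℂ)) := by
    filter_upwards [hYs e', hYs e, hW (Ys e)] with ξ h1 h2 h3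
    rw [h1, h3, h2]
    have hp : 0 < ww β θ ξ + M := by linarith [ww_nonneg β θ ξ]
    have hs : ((√(ww β θ ξ + M) : ℝ) : ℂ) * ((√(ww β θ ξ + M) : ℝ) : ℂ) =
        ((ww β θ ξ + M : ℝ) : ℂ) := by
      rw [← Complex.ofReal_mul, Real.mul_self_sqrt hp.le]
    have hs0 : ((√(ww β θ ξ + M) : ℝ) : ℂ) ≠ 0 := by
      exact_mod_cast (Real.sqrt_pos.2 hp).ne'
    rw [RCLike.inner_apply, map_div₀, Complex.conj_ofReal, ← hs]
    field_simp
  constructor
  · exact (L2.integrable_inner (𝕜 := ℂ) (Ys e') (W (Ys e))).congr hae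
  · rw [L2.inner_def]
    exact integral_congr_ae hae

/-- **YWY.** -/
theorem t_YWY (hKOP : S_KOP) (hCONV : S_CONV) (hKPL : S_KPL) : S_YWY := by
  intro L β X y hc M θ z Ys W hM hθ0 hθ1 hz hYs hW
  have hk := (hKPL β θ hc.β_pos hθ0 hθ1).2.1 z hz
  obtain ⟨⟨c₀, C₀, hc₀, hadm⟩, hk2⟩ := hk
  obtain ⟨ρ, hρ, hρ2⟩ := hCONV L β X y hc c₀ C₀ hc₀
  set κ := kpl β θ z with hκ
  refine ContinuousLinearMap.ext fun e => ext_inner_left ℂ fun e' => ?_
  have h1 := inner_eq hM hYs _ hW e' e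
  have h2 : inner ℂ e' ((Ys.adjoint ∘L W ∘L Ys) e) = inner ℂ (Ys e') (W (Ys e)) := by
    simp [ContinuousLinearMap.adjoint_inner_right]
  rw [h2, h1.2]
  have h3 := hasSum_mZR h1.1
  have h4 : ∀ m : ℤ, (∫ η : ℝ, conj (eh L X y e' (m, η)) * eh L X y e (m, η) *
      (((ww β θ (m, η) + M : ℝ) : ℂ) / (((ww β θ (m, η) : ℝ) : ℂ) - z) /
        ((ww β θ (m, η) + M : ℝ) : ℂ))) = inner ℂ e' (Mo L X y m (κ m) e) := by
    intro m
    rw [← (chan hKOP hc.L_pos hc.X_cont hc.y_cont m (hk2 m).1 e' e).2]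
    refine integral_congr_ae (Eventually.of_forall fun η => ?_)
    have hp : ((ww β θ (m, η) + M : ℝ) : ℂ) ≠ 0 := by
      have : 0 < ww β θ (m, η) + M := by linarith [ww_nonneg β θ (m, η)]
      exact_mod_cast this.ne'
    have hw : ((ww β θ (m, η) : ℝ) : ℂ) - z = κ m ^ 2 + ((4 * Real.pi ^ 2 * η ^ 2 : ℝ) : ℂ) := by
      rw [(hk2 m).2]
      unfold ww
      push_cast
      ring
    simp only
    rw [hw]
    have hn := ne_zero_lor (hk2 m).1 η
    field_simp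
  have h5 : HasSum (fun m : ℤ => inner ℂ e' (Mo L X y m (κ m) e))
      (∫ ξ, conj (eh L X y e' ξ) * eh L X y e ξ *
        (((ww β θ ξ + M : ℝ) : ℂ) / (((ww β θ ξ : ℝ) : ℂ) - z) / ((ww β θ ξ + M : ℝ) : ℂ)) ∂mZR) := by
    simpa only [h4] using h3
  have h6 := sum_Icc h5
  have h7 : Tendsto (fun N : ℕ => inner ℂ e' (PS L X y κ N e)) atTop
      (𝓝 (inner ℂ e' (KK L X y κ e))) := by
    have h8 : Tendsto (fun N : ℕ => PS L X y κ N) atTop (𝓝 (KK L X y κ)) := by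
      rw [tendsto_iff_norm_sub_tendsto_zero]
      exact squeeze_zero (fun N => norm_nonneg _) (fun N => hρ2 κ hadm N) hρ
    have h9 : Tendsto (fun N : ℕ => PS L X y κ N e) atTop (𝓝 (KK L X y κ e)) :=
      ((ContinuousLinearMap.apply ℂ (EL L) e).continuous.tendsto _).comp h8
    exact tendsto_const_nhds.inner h9
  refine tendsto_nhds_unique h6 (h7.congr fun N => ?_)
  simp only [PS, ContinuousLinearMap.sum_apply, inner_sum]

end Pool.Agent.H236.LK773
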